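import Pool.Agent.Helper61.CAR.GoalsQ

/-!
Packet CAR-EN (MP_d97caa_an): the algebra `E` has property (N).
-/

set_option autoImplicit false

open scoped ComplexOrder ZeroAtInfty ComplexConjugate Topology
open Filter

namespace Pool.Agent.Helper64.CAR

open Pool.Agent.Helper34.CAR Pool.Agent.Helper61.CAR

section qf

variable {J : Type} [Fintype J] {R : Type} [NonUnitalCStarAlgebra R]

theorem qf_sub (a b : CStarMatrix J J ℂ) (v : J → R) : qf (a - b) v = qf a v - qf b v := by
  simp only [qf, CStarMatrix.sub_apply, sub_smul, Finset.sum_sub_distrib]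

theorem qf_zero (a : CStarMatrix J J ℂ) : qf a (fun _ : J => (0 : R)) = 0 := by
  simp [qf]

theorem qf_smul (a : CStarMatrix J J ℂ) (v : J → R) (c : ℝ) :
    qf a (fun p => (c : ℂ) • v p) = ((c ^ 2 : ℝ) : ℂ) • qf a v := by
  simp only [qf, Finset.smul_sum]
  refine Finset.sum_congr rfl fun p _ => Finset.sum_congr rfl fun q _ => ?_
  rw [star_smul, smul_mul_smul_comm, smul_smul, smul_smul]
  congr 1
  rw [Complex.star_def, Complex.conj_ofReal]
  push_cast
  ring

theorem map_qf {R' : Type} [NonUnitalCStarAlgebra R'] (φ : R →⋆ₙₐ[ℂ] R')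
    (a : CStarMatrix J J ℂ) (v : J → R) : φ (qf a v) = qf a fun p => φ (v p) := by
  simp only [qf, map_sum, map_smul, map_mul, map_star]

theorem qf_one [DecidableEq J] (v : J → R) :
    qf (1 : CStarMatrix J J ℂ) v = ∑ p, star (v p) * v p := by
  simp only [qf, CStarMatrix.one_apply, ite_smul, one_smul, zero_smul, Finset.sum_ite_eq,
    Finset.mem_univ, if_true]

/-- Approximate multiplicativity on the column. -/
theorem qf_lin [DecidableEq J] {R' : Type} [NonUnitalCStarAlgebra R'] (Φ : R →ₗ[ℂ] R')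
    (a : CStarMatrix J J ℂ) (y : J → R) (η : ℝ)
    (h : ∀ p q, ‖Φ (star (y p) * y q) - star (Φ (y p)) * Φ (y q)‖ ≤ η) :
    ‖qf a (fun p => Φ (y p)) - Φ (qf a y)‖ ≤ ‖a‖ * ((Fintype.card J : ℝ) ^ 2 * η) := by
  have h1 : qf a (fun p => Φ (y p)) - Φ (qf a y) =
      ∑ p, ∑ q, a p q • (star (Φ (y p)) * Φ (y q) - Φ (star (y p) * y q)) := by
    simp only [qf, map_sum, map_smul, smul_sub, Finset.sum_sub_distrib]
  rw [h1]
  have h2 : ∀ p q, ‖a p q • (star (Φ (y p)) * Φ (y q) - Φ (star (y p) * y q))‖ ≤ ‖a‖ * η := by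
    intro p q
    rw [norm_smul, norm_sub_rev]
    exact mul_le_mul CStarMatrix.norm_entry_le_norm (h p q) (norm_nonneg _) (norm_nonneg _)
  calc ‖∑ p, ∑ q, a p q • (star (Φ (y p)) * Φ (y q) - Φ (star (y p) * y q))‖
      ≤ ∑ p, ‖∑ q, a p q • (star (Φ (y p)) * Φ (y q) - Φ (star (y p) * y q))‖ :=
        norm_sum_le _ _
    _ ≤ ∑ _p : J, ∑ _q : J, ‖a‖ * η := by
        refine Finset.sum_le_sum fun p _ => ?_
        exact (norm_sum_le _ _).trans (Finset.sum_le_sum fun q _ => h2 p q)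
    _ = ‖a‖ * ((Fintype.card J : ℝ) ^ 2 * η) := by
        simp only [Finset.sum_const, Finset.card_univ, nsmul_eq_mul]
        ring

theorem norm_one_le [DecidableEq J] : ‖(1 : CStarMatrix J J ℂ)‖ ≤ 1 := by
  have h := CStarRing.norm_star_mul_self (x := (1 : CStarMatrix J J ℂ))
  rw [star_one, one_mul] at h
  nlinarith [norm_nonneg (1 : CStarMatrix J J ℂ)]

/-- The matrix units of one row. -/
theorem units (J : Type) [Fintype J] [DecidableEq J] : ∃ w : J → CStarMatrix J J ℂ,
    ∀ a : CStarMatrix J J ℂ, qf a w = a := by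
  rcases isEmpty_or_nonempty J with hJ | ⟨⟨o⟩⟩
  · refine ⟨fun _ => 0, fun a => ?_⟩
    ext i j
    exact (hJ.false i).elim
  · refine ⟨fun p => CStarMatrix.ofMatrix (Matrix.single o p 1), fun a => ?_⟩
    ext i j
    have h1 : ∀ p q, (star (CStarMatrix.ofMatrix (Matrix.single o p (1 : ℂ))) *
        CStarMatrix.ofMatrix (Matrix.single o q (1 : ℂ)) : CStarMatrix J J ℂ) i j =
        if p = i ∧ q = j then 1 else 0 := by
      intro p q
      rw [CStarMatrix.mul_apply, Finset.sum_eq_single o]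
      · rw [CStarMatrix.star_apply, CStarMatrix.ofMatrix_apply, CStarMatrix.ofMatrix_apply,
          Matrix.single_apply, Matrix.single_apply]
        by_cases h1 : p = i <;> by_cases h2 : q = j <;> simp [h1, h2]
      · intro k _ hk
        rw [CStarMatrix.star_apply, CStarMatrix.ofMatrix_apply, Matrix.single_apply,
          if_neg (fun h => hk h.1.symm), star_zero, zero_mul]
      · intro h
        exact absurd (Finset.mem_univ o) h
    have h2 : ∀ (s : Finset J) (f : J → CStarMatrix J J ℂ), (∑ p ∈ s, f p) i j =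
        ∑ p ∈ s, f p i j := by
      intro s f
      induction s using Finset.induction_on with
      | empty => simp
      | insert b s hb ih => rw [Finset.sum_insert hb, Finset.sum_insert hb, CStarMatrix.add_apply, ih]
    unfold qf
    rw [h2, Finset.sum_eq_single i]
    · rw [h2, Finset.sum_eq_single j]
      · rw [CStarMatrix.smul_apply, h1, if_pos ⟨rfl, rfl⟩, smul_eq_mul, mul_one]
      · intro q _ hq
        rw [CStarMatrix.smul_apply, h1, if_neg (fun h => hq h.2), smul_zero]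
      · intro h
        exact absurd (Finset.mem_univ j) h
    · intro p _ hp
      rw [h2]
      refine Finset.sum_eq_zero fun q _ => ?_
      rw [CStarMatrix.smul_apply, h1, if_neg (fun h => hp h.1), smul_zero]
    · intro h
      exact absurd (Finset.mem_univ i) h

end qf

/-- The block index. -/
abbrev idx (N n0 : ℕ) : Option (Fin N) → ℕ := fun i => i.elim n0 fun n => (n : ℕ)

/-- The column. -/
def colv {Y : Type} [NonUnitalCStarAlgebra Y] (S : QSeq Y) {E : Type} (N n0 : ℕ)
    (V : S.J n0 → E) (u : ∀ n, S.J n → E) : ∀ i : Option (Fin N), S.J (idx N n0 i) → E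
  | none => V
  | some n => u n

theorem key {Y : Type} [NonUnitalCStarAlgebra Y] (S : QSeq Y) {E : Type}
    [NonUnitalCStarAlgebra E] {x : ∀ n, E →⋆ₙₐ[ℂ] CStarMatrix (S.J n) (S.J n) ℂ}
    {ρ : E →⋆ₙₐ[ℂ] Y} (hE : IsE S E x ρ) (N n0 : ℕ) (c : ℝ) :
    ∃ v : ∀ i : Option (Fin N), S.J (idx N n0 i) → E,
      ∀ X : ∀ i : Option (Fin N), CStarMatrix (S.J (idx N n0 i)) (S.J (idx N n0 i)) ℂ,
        (∀ n (hn : n < N), x n (∑ i, qf (X i) (v i)) = X (some ⟨n, hn⟩)) ∧
        (∀ n, N ≤ n → x n (∑ i, qf (X i) (v i)) =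
          ((c ^ 2 : ℝ) : ℂ) • qf (X none) fun p => S.Φ n (S.y n0 p)) ∧
        ρ (∑ i, qf (X i) (v i)) = ((c ^ 2 : ℝ) : ℂ) • qf (X none) (S.y n0) := by
  classical
  have h1 : ∀ p : S.J n0, ∃ V : E, (∀ n, n < N → x n V = 0) ∧
      (∀ n, N ≤ n → x n V = S.Φ n (S.y n0 p)) ∧ ρ V = S.y n0 p := by
    intro p
    obtain ⟨e, he1, he2⟩ := hE.ex (fun n => if n < N then 0 else S.Φ n (S.y n0 p)) (S.y n0 p) (by
      refine tendsto_const_nhds.congr' ?_
      filter_upwards [eventually_ge_atTop N] with n hn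
      rw [if_neg (not_lt.2 hn), sub_self, norm_zero])
    refine ⟨e, fun n hn => ?_, fun n hn => ?_, he2⟩
    · rw [he1, if_pos hn]
    · rw [he1, if_neg (not_lt.2 hn)]
  choose V hV1 hV2 hV3 using h1
  choose w hw using fun n => units (S.J n)
  have h2 : ∀ n (p : S.J n), ∃ e : E, x n e = w n p ∧ (∀ k, k ≠ n → x k e = 0) ∧ ρ e = 0 := by
    intro n p
    obtain ⟨e, he1, he2⟩ := hE.ex (Function.update (fun _ => 0) n (w n p)) 0 (by
      refine tendsto_const_nhds.congr' ?_
      filter_upwards [eventually_gt_atTop n] with k hk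
      rw [Function.update_of_ne (by omega), map_zero, sub_self, norm_zero])
    refine ⟨e, ?_, fun k hk => ?_, he2⟩
    · rw [he1, Function.update_self]
    · rw [he1, Function.update_of_ne hk]
  choose u hu1 hu2 hu3 using h2
  refine ⟨colv S N n0 (fun p => (c : ℂ) • V p) u, fun X => ⟨?_, ?_, ?_⟩⟩
  · intro n hn
    rw [Fintype.sum_option, map_add, map_sum]
    have e1 : x n (qf (X none) (colv S N n0 (fun p => (c : ℂ) • V p) u none)) = 0 := by
      rw [map_qf]
      have : (fun p => x n (colv S N n0 (fun p => (c : ℂ) • V p) u none p)) = fun _ => 0 := by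
        funext p
        show x n ((c : ℂ) • V p) = 0
        rw [map_smul, hV1 p n hn, smul_zero]
      rw [this, qf_zero]
    rw [e1, zero_add, Finset.sum_eq_single (⟨n, hn⟩ : Fin N)]
    · rw [map_qf]
      have : (fun p => x n (colv S N n0 (fun p => (c : ℂ) • V p) u (some ⟨n, hn⟩) p)) = w n := by
        funext p
        exact hu1 n p
      rw [this]
      exact hw n _
    · intro m _ hm
      rw [map_qf]
      have : (fun p => x n (colv S N n0 (fun p => (c : ℂ) • V p) u (some m) p)) = fun _ => 0 := by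
        funext p
        exact hu2 m p n (fun h => hm (Fin.ext h.symm))
      rw [this, qf_zero]
    · intro h
      exact absurd (Finset.mem_univ _) h
  · intro n hn
    rw [Fintype.sum_option, map_add, map_sum]
    have e1 : ∑ m : Fin N, x n (qf (X (some m))
        (colv S N n0 (fun p => (c : ℂ) • V p) u (some m))) = 0 := by
      refine Finset.sum_eq_zero fun m _ => ?_
      rw [map_qf]
      have : (fun p => x n (colv S N n0 (fun p => (c : ℂ) • V p) u (some m) p)) = fun _ => 0 := by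
        funext p
        exact hu2 m p n (by have := m.2; omega)
      rw [this, qf_zero]
    rw [e1, add_zero, map_qf, ← qf_smul]
    congr 1
    funext p
    show x n ((c : ℂ) • V p) = _
    rw [map_smul, hV2 p n hn]
  · rw [Fintype.sum_option, map_add, map_sum]
    have e1 : ∑ m : Fin N, ρ (qf (X (some m))
        (colv S N n0 (fun p => (c : ℂ) • V p) u (some m))) = 0 := by
      refine Finset.sum_eq_zero fun m _ => ?_
      rw [map_qf]
      have : (fun p => ρ (colv S N n0 (fun p => (c : ℂ) • V p) u (some m) p)) = fun _ => 0 := by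
        funext p
        exact hu3 m p
      rw [this, qf_zero]
    rw [e1, add_zero, map_qf, ← qf_smul]
    congr 1
    funext p
    show ρ ((c : ℂ) • V p) = _
    rw [map_smul, hV3 p]

theorem en (hCOL : S_COL) (hBD : S_BD) : S_EN := by
  intro Y _ S E _ x ρ hE F ε hε
  classical
  obtain ⟨T, hT1, hT⟩ : ∃ T : ℝ, 1 ≤ T ∧ ∀ e ∈ F, ‖e‖ ≤ T := by
    refine ⟨1 + ∑ e ∈ F, ‖e‖, ?_, fun e he => ?_⟩
    · have : 0 ≤ ∑ e ∈ F, ‖e‖ := Finset.sum_nonneg fun e _ => norm_nonneg e
      linarith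
    · have := Finset.single_le_sum (f := fun e => ‖e‖) (fun e _ => norm_nonneg e) he
      linarith
  obtain ⟨e1, he1, he10⟩ : ∃ e1 : ℝ, e1 = ε / 20 ∧ 0 < e1 := ⟨ε / 20, rfl, by positivity⟩
  obtain ⟨e2, he20, he2T⟩ : ∃ e2 : ℝ, 0 < e2 ∧ e2 * (1 + T) ≤ e1 := by
    refine ⟨e1 / (1 + T), by positivity, ?_⟩
    rw [div_mul_cancel₀]
    positivity
  have hxn : ∀ n e, ‖x n e‖ ≤ ‖e‖ := fun n e => NonUnitalStarAlgHom.norm_apply_le (x n) e
  have hρn : ∀ e, ‖ρ e‖ ≤ ‖e‖ := fun e => NonUnitalStarAlgHom.norm_apply_le ρ e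
  have hlim : ∀ᶠ n in atTop, ∀ e ∈ F, ‖x n e - S.Φ n (ρ e)‖ ≤ e1 := by
    rw [Filter.eventually_all_finset]
    intro e _
    filter_upwards [(hE.lim e).eventually_lt_const he10] with n hn
    exact hn.le
  have happ : ∀ᶠ n in atTop, ∀ e ∈ F, ‖qf (S.Φ n (ρ e)) (S.y n) - ρ e‖ ≤ e1 := by
    rw [Filter.eventually_all_finset]
    intro e _
    filter_upwards [(S.app (ρ e)).eventually_lt_const he10] with n hn
    exact hn.le
  obtain ⟨n0, hn1, hn2⟩ := (hlim.and happ).exists
  obtain ⟨η, hη0, hη⟩ : ∃ η : ℝ, 0 < η ∧ (Fintype.card (S.J n0) : ℝ) ^ 2 * η ≤ e2 := by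
    refine ⟨e2 / ((Fintype.card (S.J n0) : ℝ) ^ 2 + 1), by positivity, ?_⟩
    rw [mul_div_assoc', div_le_iff₀ (by positivity)]
    nlinarith
  have hmul : ∀ᶠ n in atTop, ∀ p q : S.J n0, ‖S.Φ n (star (S.y n0 p) * S.y n0 q) -
      star (S.Φ n (S.y n0 p)) * S.Φ n (S.y n0 q)‖ ≤ η := by
    rw [Filter.eventually_all]
    intro p
    rw [Filter.eventually_all]
    intro q
    filter_upwards [(S.mul (star (S.y n0 p)) (S.y n0 q)).eventually_lt_const hη0] with n hn
    rw [S.starmap] at hn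
    exact hn.le
  obtain ⟨N, hN⟩ := eventually_atTop.1 (hmul.and hlim)
  obtain ⟨c, hc⟩ : ∃ c : ℝ, c ^ 2 = 1 / (1 + e2) :=
    ⟨Real.sqrt (1 / (1 + e2)), Real.sq_sqrt (by positivity)⟩
  have hc0 : 0 ≤ c ^ 2 := sq_nonneg c
  have hc1 : c ^ 2 ≤ 1 := by
    rw [hc, div_le_one (by positivity)]
    linarith
  have hc2 : c ^ 2 * (1 + e2) = 1 := by
    rw [hc]
    field_simp
  have hc3 : 1 - c ^ 2 ≤ e2 := by nlinarith
  have hcn : ∀ {R : Type} [NonUnitalCStarAlgebra R] (z : R),
      ‖((c ^ 2 : ℝ) : ℂ) • z‖ = c ^ 2 * ‖z‖ := by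
    intro R _ z
    rw [norm_smul, Complex.norm_real, Real.norm_of_nonneg hc0]
  have hcn2 : ∀ {R : Type} [NonUnitalCStarAlgebra R] (z : R),
      ‖((c ^ 2 : ℝ) : ℂ) • z - z‖ ≤ e2 * ‖z‖ := by
    intro R _ z
    have h1 : ((c ^ 2 : ℝ) : ℂ) • z - z = (((c ^ 2 - 1 : ℝ)) : ℂ) • z := by
      rw [Complex.ofReal_sub, sub_smul, Complex.ofReal_one, one_smul]
    rw [h1, norm_smul, Complex.norm_real, Real.norm_eq_abs, abs_sub_comm, abs_of_nonneg (by linarith)]
    exact mul_le_mul_of_nonneg_right hc3 (norm_nonneg _)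
  obtain ⟨v, hv⟩ := key S hE N n0 c
  obtain ⟨β, -, -, -, hβ⟩ := hBD (Option (Fin N)) (fun i => S.J (idx N n0 i))
  let σ : E →⋆ₙₐ[ℂ] CStarMatrix (Σ i : Option (Fin N), S.J (idx N n0 i))
      (Σ i : Option (Fin N), S.J (idx N n0 i)) ℂ :=
    { toFun := fun e => β fun i => x (idx N n0 i) e
      map_smul' := fun r e => by
        have : (fun i => x (idx N n0 i) (r • e)) = r • fun i => x (idx N n0 i) e := by
          funext i
          rw [map_smul]
          rfl
        rw [this, map_smul]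
        rfl
      map_zero' := by
        have : (fun i => x (idx N n0 i) 0) = 0 := by
          funext i
          rw [map_zero]
          rfl
        rw [this, map_zero]
      map_add' := fun e e' => by
        have : (fun i => x (idx N n0 i) (e + e')) =
            (fun i => x (idx N n0 i) e) + fun i => x (idx N n0 i) e' := by
          funext i
          rw [map_add]
          rfl
        rw [this, map_add]
      map_mul' := fun e e' => by
        have : (fun i => x (idx N n0 i) (e * e')) =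
            (fun i => x (idx N n0 i) e) * fun i => x (idx N n0 i) e' := by
          funext i
          rw [map_mul]
          rfl
        rw [this, map_mul]
      map_star' := fun e => by
        have : (fun i => x (idx N n0 i) (star e)) = star (fun i => x (idx N n0 i) e) := by
          funext i
          rw [map_star]
          rfl
        rw [this, map_star] }
  have hσ : ∀ e, σ e = β fun i => x (idx N n0 i) e := fun e => rfl
  refine ⟨Σ i : Option (Fin N), S.J (idx N n0 i), inferInstance, inferInstance, σ,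
    fun s => v s.1 s.2, ?_, ?_⟩
  · rw [← qf_one, ← map_one β, hβ]
    have hv1 := hv (fun i => 1)
    obtain ⟨h1, h2, h3⟩ := hv1
    refine hE.norm_le _ 1 zero_le_one ?_ ?_
    · intro n
      rcases lt_or_ge n N with hn | hn
      · have := h1 n hn
        refine le_trans (le_of_eq (congrArg norm this)) ?_
        exact norm_one_le
      · have := h2 n hn
        refine le_trans (le_of_eq (congrArg norm this)) ?_
        rw [hcn]
        have h4 := qf_lin (S.Φ n) (1 : CStarMatrix (S.J n0) (S.J n0) ℂ) (S.y n0) η (hN n hn).1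
        have h5 : ‖(1 : CStarMatrix (S.J n0) (S.J n0) ℂ)‖ ≤ 1 := norm_one_le
        have h6 : ‖S.Φ n (qf (1 : CStarMatrix (S.J n0) (S.J n0) ℂ) (S.y n0))‖ ≤ 1 := by
          refine (S.contr n _).trans ?_
          rw [qf_one]
          exact S.col n0
        have h7 : ‖qf (1 : CStarMatrix (S.J n0) (S.J n0) ℂ) fun p => S.Φ n (S.y n0 p)‖ ≤
            1 + e2 := by
          have h8 := norm_add_le
            ((qf (1 : CStarMatrix (S.J n0) (S.J n0) ℂ) fun p => S.Φ n (S.y n0 p)) -
              S.Φ n (qf (1 : CStarMatrix (S.J n0) (S.J n0) ℂ) (S.y n0)))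
            (S.Φ n (qf (1 : CStarMatrix (S.J n0) (S.J n0) ℂ) (S.y n0)))
          rw [sub_add_cancel] at h8
          have h9 : ‖(1 : CStarMatrix (S.J n0) (S.J n0) ℂ)‖ *
              ((Fintype.card (S.J n0) : ℝ) ^ 2 * η) ≤ 1 * e2 :=
            mul_le_mul h5 hη (by positivity) zero_le_one
          linarith
        calc c ^ 2 * ‖qf (1 : CStarMatrix (S.J n0) (S.J n0) ℂ) fun p => S.Φ n (S.y n0 p)‖
            ≤ c ^ 2 * (1 + e2) := mul_le_mul_of_nonneg_left h7 hc0
          _ = 1 := hc2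
    · refine le_trans (le_of_eq (congrArg norm h3)) ?_
      rw [hcn]
      have h6 : ‖qf (1 : CStarMatrix (S.J n0) (S.J n0) ℂ) (S.y n0)‖ ≤ 1 := by
        rw [qf_one]
        exact S.col n0
      calc c ^ 2 * ‖qf (1 : CStarMatrix (S.J n0) (S.J n0) ℂ) (S.y n0)‖ ≤ 1 * 1 :=
            mul_le_mul hc1 h6 (norm_nonneg _) zero_le_one
        _ = 1 := one_mul 1
  · intro e he
    rw [hσ, hβ]
    obtain ⟨h1, h2, h3⟩ := hv (fun i => x (idx N n0 i) e)
    have hqy : ‖qf (x n0 e) (S.y n0) - ρ e‖ ≤ 2 * e1 := by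
      have h4 : ‖qf (x n0 e - S.Φ n0 (ρ e)) (S.y n0)‖ ≤ e1 := by
        refine (hCOL _ _ _ _).trans ?_
        have := hn1 e he
        calc ‖x n0 e - S.Φ n0 (ρ e)‖ * ‖∑ p, star (S.y n0 p) * S.y n0 p‖ ≤ e1 * 1 :=
              mul_le_mul this (S.col n0) (norm_nonneg _) he10.le
          _ = e1 := mul_one e1
      have h5 := norm_add_le (qf (x n0 e - S.Φ n0 (ρ e)) (S.y n0))
        (qf (S.Φ n0 (ρ e)) (S.y n0) - ρ e)
      rw [qf_sub] at h4 h5
      rw [sub_add_sub_cancel] at h5
      have := hn2 e he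
      linarith
    have hρe : ‖ρ e‖ ≤ T := (hρn e).trans (hT e he)
    have hmain : ‖(∑ i, qf (x (idx N n0 i) e) (v i)) - e‖ ≤ 5 * e1 := by
      refine hE.norm_le _ (5 * e1) (by positivity) ?_ ?_
      · intro n
        rw [map_sub]
        rcases lt_or_ge n N with hn | hn
        · have h4 : x n (∑ i, qf (x (idx N n0 i) e) (v i)) = x n e := h1 n hn
          rw [h4, sub_self, norm_zero]
          positivity
        · have h4 : x n (∑ i, qf (x (idx N n0 i) e) (v i)) =
            ((c ^ 2 : ℝ) : ℂ) • qf (x n0 e) fun p => S.Φ n (S.y n0 p) := h2 n hn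
          rw [h4]
          have a1 := qf_lin (S.Φ n) (x n0 e) (S.y n0) η (hN n hn).1
          have a2 : ‖x n0 e‖ * ((Fintype.card (S.J n0) : ℝ) ^ 2 * η) ≤ T * e2 :=
            mul_le_mul ((hxn n0 e).trans (hT e he)) hη (by positivity) (by linarith)
          have a3 : ‖S.Φ n (qf (x n0 e) (S.y n0)) - S.Φ n (ρ e)‖ ≤ 2 * e1 := by
            rw [← map_sub]
            exact (S.contr n _).trans hqy
          have a4 : ‖(qf (x n0 e) fun p => S.Φ n (S.y n0 p)) - S.Φ n (ρ e)‖ ≤
              T * e2 + 2 * e1 := by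
            have := norm_add_le ((qf (x n0 e) fun p => S.Φ n (S.y n0 p)) -
              S.Φ n (qf (x n0 e) (S.y n0))) (S.Φ n (qf (x n0 e) (S.y n0)) - S.Φ n (ρ e))
            rw [sub_add_sub_cancel] at this
            linarith
          have a5 : ‖((c ^ 2 : ℝ) : ℂ) • ((qf (x n0 e) fun p => S.Φ n (S.y n0 p)) -
              S.Φ n (ρ e))‖ ≤ T * e2 + 2 * e1 := by
            rw [hcn]
            calc c ^ 2 * ‖(qf (x n0 e) fun p => S.Φ n (S.y n0 p)) - S.Φ n (ρ e)‖
                ≤ 1 * (T * e2 + 2 * e1) := mul_le_mul hc1 a4 (norm_nonneg _) zero_le_one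
              _ = T * e2 + 2 * e1 := one_mul _
          have a6 : ‖((c ^ 2 : ℝ) : ℂ) • S.Φ n (ρ e) - S.Φ n (ρ e)‖ ≤ e2 * T :=
            (hcn2 _).trans (mul_le_mul_of_nonneg_left ((S.contr n _).trans hρe) he20.le)
          have a7 : ‖S.Φ n (ρ e) - x n e‖ ≤ e1 := by
            rw [norm_sub_rev]
            exact (hN n hn).2 e he
          rw [smul_sub] at a5
          have a8 := norm_add₃_le
            (a := ((c ^ 2 : ℝ) : ℂ) • (qf (x n0 e) fun p => S.Φ n (S.y n0 p)) -
              ((c ^ 2 : ℝ) : ℂ) • S.Φ n (ρ e))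
            (b := ((c ^ 2 : ℝ) : ℂ) • S.Φ n (ρ e) - S.Φ n (ρ e)) (c := S.Φ n (ρ e) - x n e)
          rw [sub_add_sub_cancel, sub_add_sub_cancel] at a8
          nlinarith
      · rw [map_sub, h3]
        show ‖((c ^ 2 : ℝ) : ℂ) • qf (x n0 e) (S.y n0) - ρ e‖ ≤ 5 * e1
        have a5 : ‖((c ^ 2 : ℝ) : ℂ) • (qf (x n0 e) (S.y n0) - ρ e)‖ ≤ 2 * e1 := by
          rw [hcn]
          calc c ^ 2 * ‖qf (x n0 e) (S.y n0) - ρ e‖ ≤ 1 * (2 * e1) :=
                mul_le_mul hc1 hqy (norm_nonneg _) zero_le_one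
            _ = 2 * e1 := one_mul _
        have a6 : ‖((c ^ 2 : ℝ) : ℂ) • ρ e - ρ e‖ ≤ e2 * T :=
          (hcn2 _).trans (mul_le_mul_of_nonneg_left hρe he20.le)
        rw [smul_sub] at a5
        have a8 := norm_add_le
          (((c ^ 2 : ℝ) : ℂ) • qf (x n0 e) (S.y n0) - ((c ^ 2 : ℝ) : ℂ) • ρ e)
          (((c ^ 2 : ℝ) : ℂ) • ρ e - ρ e)
        rw [sub_add_sub_cancel] at a8
        nlinarith
    have : 5 * e1 < ε := by
      rw [he1]
      linarith
    exact lt_of_le_of_lt hmain this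

end Pool.Agent.Helper64.CAR
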