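import Pool.Agent.Helper34.CAR.GoalsA

/-!
Packet CAR-STEP (MP_d97caa_an): property (N) and the null chain give the step property.
-/

set_option autoImplicit false

open scoped ComplexOrder ZeroAtInfty

namespace Pool.Agent.Helper64.CAR

open Pool.Agent.Helper34.CAR

section amp

variable {R : Type} [CStarAlgebra R] {J : Type} [Fintype J] [DecidableEq J] {m : ℕ}

theorem amp_none_none (g : R) (a : CStarMatrix J J ℂ) :
    amp m g a none none = g := by
  unfold amp
  rw [Mt.add_apply, Mt.sum_apply]
  simp [slot, blk]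

theorem amp_none_some (g : R) (a : CStarMatrix J J ℂ) (y : Fin m × J) :
    amp m g a none (some y) = 0 := by
  unfold amp
  rw [Mt.add_apply, Mt.sum_apply]
  simp [slot, blk]

theorem amp_some_none (g : R) (a : CStarMatrix J J ℂ) (y : Fin m × J) :
    amp m g a (some y) none = 0 := by
  unfold amp
  rw [Mt.add_apply, Mt.sum_apply]
  simp [slot, blk]

theorem amp_some_some (g : R) (a : CStarMatrix J J ℂ) (x y : Fin m × J) :
    amp m g a (some x) (some y) = if x.1 = y.1 then algebraMap ℂ R (a x.2 y.2) else 0 := by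
  obtain ⟨i, p⟩ := x
  obtain ⟨i', q⟩ := y
  unfold amp
  rw [Mt.add_apply, Mt.sum_apply]
  simp only [slot, blk, Mt.of_apply, zero_add]
  by_cases h : i = i'
  · subst h
    rw [if_pos rfl, Finset.sum_eq_single i]
    · rw [if_pos ⟨rfl, rfl⟩]
    · intro j _ hj
      rw [if_neg]
      exact fun h => hj h.1.symm
    · intro h
      exact absurd (Finset.mem_univ i) h
  · rw [if_neg h]
    refine Finset.sum_eq_zero fun j _ => ?_
    rw [if_neg]
    exact fun h' => h (h'.1.trans h'.2.symm)

theorem amp_one : amp m (1 : R) (1 : CStarMatrix J J ℂ) = 1 := by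
  ext x y
  rcases x with _ | ⟨i, p⟩ <;> rcases y with _ | ⟨i', q⟩
  · rw [amp_none_none, Mt.one_apply_eq]
  · rw [amp_none_some, Mt.one_apply_ne (by simp)]
  · rw [amp_some_none, Mt.one_apply_ne (by simp)]
  · rw [amp_some_some, Mt.one_apply]
    by_cases h : i = i' <;> by_cases h2 : p = q <;> simp [h, h2, CStarMatrix.one_apply]

theorem amp_add (g g' : R) (a a' : CStarMatrix J J ℂ) :
    amp m (g + g') (a + a') = amp m g a + amp m g' a' := by
  ext x y
  rcases x with _ | ⟨i, p⟩ <;> rcases y with _ | ⟨i', q⟩
  · rw [Mt.add_apply, amp_none_none, amp_none_none, amp_none_none]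
  · rw [Mt.add_apply, amp_none_some, amp_none_some, amp_none_some, add_zero]
  · rw [Mt.add_apply, amp_some_none, amp_some_none, amp_some_none, add_zero]
  · rw [Mt.add_apply, amp_some_some, amp_some_some, amp_some_some]
    by_cases h : i = i' <;> simp [h]

theorem amp_smul (c : ℂ) (g : R) (a : CStarMatrix J J ℂ) :
    amp m (c • g) (c • a) = c • amp m g a := by
  ext x y
  rcases x with _ | ⟨i, p⟩ <;> rcases y with _ | ⟨i', q⟩
  · rw [Mt.smul_apply, amp_none_none, amp_none_none]
  · rw [Mt.smul_apply, amp_none_some, amp_none_some, smul_zero]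
  · rw [Mt.smul_apply, amp_some_none, amp_some_none, smul_zero]
  · rw [Mt.smul_apply, amp_some_some, amp_some_some]
    by_cases h : i = i'
    · simp [h, Algebra.algebraMap_eq_smul_one, smul_smul]
    · simp [h]

theorem amp_star (g : R) (a : CStarMatrix J J ℂ) :
    amp m (star g) (star a) = star (amp m g a) := by
  ext x y
  rcases x with _ | ⟨i, p⟩ <;> rcases y with _ | ⟨i', q⟩
  · rw [Mt.star_apply, amp_none_none, amp_none_none]
  · rw [Mt.star_apply, amp_none_some, amp_some_none, star_zero]
  · rw [Mt.star_apply, amp_some_none, amp_none_some, star_zero]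
  · rw [Mt.star_apply, amp_some_some, amp_some_some]
    by_cases h : i = i'
    · rw [if_pos h, if_pos h.symm, ← algebraMap_star_comm, CStarMatrix.star_apply]
    · rw [if_neg h, if_neg (fun h' => h h'.symm), star_zero]

theorem amp_mul (g g' : R) (a a' : CStarMatrix J J ℂ) :
    amp m (g * g') (a * a') = amp m g a * amp m g' a' := by
  ext x y
  rw [Mt.mul_apply, Fintype.sum_option]
  rcases x with _ | ⟨i, p⟩ <;> rcases y with _ | ⟨i', q⟩
  · rw [amp_none_none, amp_none_none, amp_none_none, Finset.sum_eq_zero, add_zero]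
    intro z _
    rw [amp_none_some, zero_mul]
  · rw [amp_none_some, amp_none_none, amp_none_some, mul_zero, zero_add, Finset.sum_eq_zero]
    intro z _
    rw [amp_none_some, zero_mul]
  · rw [amp_some_none, amp_none_none, amp_some_none, zero_mul, zero_add, Finset.sum_eq_zero]
    intro z _
    rw [amp_some_none, mul_zero]
  · rw [amp_some_some, amp_some_none, zero_mul, zero_add, Fintype.sum_prod_type]
    have h1 : ∀ (j : Fin m) (k : J), amp m g a (some (i, p)) (some (j, k)) *
        amp m g' a' (some (j, k)) (some (i', q)) =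
        if i = j ∧ j = i' then algebraMap ℂ R (a p k * a' k q) else 0 := by
      intro j k
      rw [amp_some_some, amp_some_some]
      by_cases h1 : i = j <;> by_cases h2 : j = i' <;> simp [h1, h2]
    simp only [h1]
    by_cases h : i = i'
    · rw [if_pos h, Finset.sum_eq_single i]
      · rw [CStarMatrix.mul_apply, map_sum]
        refine Finset.sum_congr rfl fun k _ => ?_
        rw [if_pos ⟨rfl, h⟩]
      · intro j _ hj
        refine Finset.sum_eq_zero fun k _ => ?_
        rw [if_neg]
        exact fun h' => hj h'.1.symm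
      · intro h'
        exact absurd (Finset.mem_univ i) h'
    · rw [if_neg h]
      refine (Finset.sum_eq_zero fun j _ => Finset.sum_eq_zero fun k _ => ?_).symm
      rw [if_neg]
      exact fun h' => h (h'.1.trans h'.2)

/-- The amplification as a homomorphism. -/
noncomputable def ampHom {B : Type} [CStarAlgebra B] (m : ℕ) (g : B →⋆ₐ[ℂ] R)
    (σ : B →⋆ₐ[ℂ] CStarMatrix J J ℂ) : B →⋆ₐ[ℂ] Mt (Option (Fin m × J)) R where
  toFun b := amp m (g b) (σ b)
  map_one' := by rw [map_one, map_one, amp_one]
  map_mul' b b' := by rw [map_mul, map_mul, amp_mul]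
  map_zero' := by
    have := amp_smul (m := m) (0 : ℂ) (0 : R) (0 : CStarMatrix J J ℂ)
    rw [map_zero, map_zero]
    simpa using this
  map_add' b b' := by rw [map_add, map_add, amp_add]
  commutes' c := by
    rw [Algebra.algebraMap_eq_smul_one, Algebra.algebraMap_eq_smul_one, map_smul, map_smul,
      map_one, map_one, amp_smul, amp_one]
  map_star' b := by rw [map_star, map_star, amp_star]

theorem ampHom_apply {B : Type} [CStarAlgebra B] (m : ℕ) (g : B →⋆ₐ[ℂ] R)
    (σ : B →⋆ₐ[ℂ] CStarMatrix J J ℂ) (b : B) : ampHom m g σ b = amp m (g b) (σ b) := rfl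

end amp

theorem norm_one_le' (A : Type) [CStarAlgebra A] : ‖(1 : A)‖ ≤ 1 := by
  have h := CStarRing.norm_star_mul_self (x := (1 : A))
  rw [star_one, one_mul] at h
  nlinarith [norm_nonneg (1 : A)]

theorem norm_isom {A : Type} [CStarAlgebra A] {w : A} (h : star w * w = 1) : ‖w‖ ≤ 1 := by
  have h1 := CStarRing.norm_star_mul_self (x := w)
  rw [h] at h1
  have h2 := norm_one_le' A
  nlinarith [norm_nonneg w]

/-- Transport of the estimate. -/
theorem conj_le {A : Type} [CStarAlgebra A] {w x y : A} (h : star w * w = 1) :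
    ‖x - star w * y * w‖ ≤ ‖w * x * star w - y‖ := by
  have h1 : x - star w * y * w = star w * (w * x * star w - y) * w := by
    have h2 : star w * (w * x * star w - y) * w =
        (star w * w) * x * (star w * w) - star w * y * w := by noncomm_ring
    rw [h2, h, one_mul, mul_one]
  rw [h1]
  have h3 := norm_isom h
  have h4 : ‖star w‖ ≤ 1 := by
    rw [norm_star]
    exact h3
  calc ‖star w * (w * x * star w - y) * w‖ ≤ ‖star w * (w * x * star w - y)‖ * ‖w‖ :=
        norm_mul_le _ _
    _ ≤ (‖star w‖ * ‖w * x * star w - y‖) * ‖w‖ :=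
        mul_le_mul_of_nonneg_right (norm_mul_le _ _) (norm_nonneg _)
    _ ≤ (1 * ‖w * x * star w - y‖) * 1 := by
        gcongr
    _ = ‖w * x * star w - y‖ := by ring

/-- Values of `starLift`. -/
theorem starLift_val {X : Type} [NonUnitalCStarAlgebra X] {R : Type} [CStarAlgebra R]
    (c : X →⋆ₙₐ[ℂ] R) (b : Unitization ℂ X) :
    Unitization.starLift c b = algebraMap ℂ R b.fst + c b.snd := by
  rfl

theorem dX_apply {X : Type} [NonUnitalCStarAlgebra X] (x y : X) (i j : Fin 2) :
    dX x y i j = if i = j then (if i = 0 then (x : Unitization ℂ X) else y) else 0 := by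
  unfold dX Mt.dg
  rw [Mt.add_apply, Mt.single_apply, Mt.single_apply]
  fin_cases i <;> fin_cases j <;> simp

theorem step (hABS : S_ABS) (hUNT : S_UNT) (hFLAT : S_FLAT) (hPAD : S_PAD) : S_STEP := by
  intro X _ θ hN hC F ε hε
  classical
  -- the chain
  obtain ⟨m, c, hc0', hcm', hc⟩ := hC (F.image fun b => b.snd) (ε / 2) (by positivity)
  have hc0 : ∀ x, c 0 x = dX (θ x) x := hc0'
  have hcm : ∀ x, c m x = 0 := hcm'
  -- constants
  obtain ⟨T, hT0, hT⟩ : ∃ T : ℝ, 0 ≤ T ∧ ∀ b ∈ F, ‖b‖ ≤ T := by
    refine ⟨∑ b ∈ F, ‖b‖, Finset.sum_nonneg fun b _ => norm_nonneg b, fun b hb => ?_⟩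
    exact Finset.single_le_sum (f := fun b => ‖b‖) (fun b _ => norm_nonneg b) hb
  obtain ⟨κ, hκ0, hκ⟩ : ∃ κ : ℝ, 0 < κ ∧ 6 * m * κ ≤ ε / 4 := by
    refine ⟨ε / (24 * (m + 1)), by positivity, ?_⟩
    have h1 : 6 * (m : ℝ) * (ε / (24 * (m + 1))) = ε / 4 * (m / (m + 1)) := by
      field_simp
      ring
    rw [h1]
    have h2 : (m : ℝ) / (m + 1) ≤ 1 := by
      rw [div_le_one (by positivity)]
      linarith
    nlinarith
  obtain ⟨δ, hδ0, hδ⟩ : ∃ δ : ℝ, 0 < δ ∧ ∀ b ∈ F, √(δ * (1 + 2 * ‖b‖)) ≤ κ := by
    refine ⟨κ ^ 2 / (1 + 2 * T), by positivity, fun b hb => ?_⟩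
    rw [Real.sqrt_le_left hκ0.le, div_mul_eq_mul_div, div_le_iff₀ (by positivity)]
    have := hT b hb
    have h3 : 0 ≤ κ ^ 2 := sq_nonneg κ
    nlinarith
  -- property (N) of the unitization
  obtain ⟨J, iJ1, iJ2, σ, v, hv1, hv2⟩ := hUNT X hN
    (F ∪ F.image star ∪ F.image (fun b => star b * b) ∪ F.image fun b => b * star b) δ hδ0
  -- absorption
  obtain ⟨w, hw1, hw2, hw⟩ := hABS (Unitization ℂ X) (Mt (Fin 2) (Unitization ℂ X)) m
    (fun i => Unitization.starLift (c i)) J σ v F (ε / 2) δ (by positivity) hδ0.le hv1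
    (by
      intro b hb j hj
      have h1 := hc b.snd (Finset.mem_image_of_mem _ hb) j hj
      rw [starLift_val, starLift_val, add_sub_add_left_eq_sub]
      exact h1)
    (by
      intro b hb
      refine ⟨(hv2 _ ?_).le, (hv2 _ ?_).le, (hv2 _ ?_).le, (hv2 _ ?_).le⟩
      · simp only [Finset.mem_union]
        exact Or.inl (Or.inl (Or.inl hb))
      · simp only [Finset.mem_union]
        exact Or.inl (Or.inl (Or.inr (Finset.mem_image_of_mem _ hb)))
      · simp only [Finset.mem_union]
        exact Or.inl (Or.inr (Finset.mem_image_of_mem _ hb))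
      · simp only [Finset.mem_union]
        exact Or.inr (Finset.mem_image_of_mem _ hb))
  obtain ⟨Ψ, -, hΨ⟩ := hFLAT (Unitization ℂ X) (Option (Fin m × J)) (Fin 2)
  -- the step on `C`
  have hstep : StepAt (Unitization.starMap θ) F ε (Option (Fin m × J) × Fin 2)
      (none, 0) (none, 1)
      (Ψ.comp (ampHom m (Unitization.starLift (c 0)) σ)) (Ψ w) := by
    have hK : ∀ b, (Ψ.comp (ampHom m (Unitization.starLift (c 0)) σ)) b =
        Ψ (amp m (Unitization.starLift (c 0) b) (σ b)) := fun b => rfl
    have hg0 : ∀ (b : Unitization ℂ X) (i j : Fin 2), (Unitization.starLift (c 0) b :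
        Mt (Fin 2) (Unitization ℂ X)) i j =
        if i = j then (if i = 0 then Unitization.starMap θ b else b) else 0 := by
      intro b i j
      rw [starLift_val, hc0, Mt.add_apply, Mt.algebraMap_apply, dX_apply]
      have e1 : Unitization.starMap θ b =
          algebraMap ℂ (Unitization ℂ X) b.fst + (θ b.snd : Unitization ℂ X) := rfl
      have e2 : b = algebraMap ℂ (Unitization ℂ X) b.fst + (b.snd : Unitization ℂ X) := by
        rw [Unitization.algebraMap_eq_inl, Unitization.inl_fst_add_inr_snd_eq]
      by_cases h1 : i = j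
      · rw [if_pos h1, if_pos h1, if_pos h1]
        by_cases h2 : i = 0
        · rw [if_pos h2, if_pos h2, e1]
        · rw [if_neg h2, if_neg h2]
          exact e2.symm
      · rw [if_neg h1, if_neg h1, if_neg h1, add_zero]
    refine ⟨?_, ?_, ?_, ?_, ?_, ?_, ?_, ?_⟩
    · intro h
      have := congrArg Prod.snd h
      simp at this
    · rw [← map_star, ← map_mul, hw1, map_one]
    · rw [← map_star, ← map_mul, hw2, map_one]
    · intro b
      rw [hK, hΨ, amp_none_none, hg0]
      rfl
    · intro b
      rw [hK, hΨ, amp_none_none, hg0]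
      rfl
    · rintro b ⟨x, k⟩ ⟨y, l⟩ hxy hor
      rw [hK, hΨ]
      show (amp m (Unitization.starLift (c 0) b) (σ b)) x y k l = 0
      rcases x with _ | x <;> rcases y with _ | y
      · rw [amp_none_none, hg0, if_neg]
        intro h
        rw [h] at hxy
        exact hxy rfl
      · rw [amp_none_some]
        rfl
      · rw [amp_some_none]
        rfl
      · exfalso
        rcases hor with h | h | h | h
        · exact Option.some_ne_none _ (congrArg Prod.fst h)
        · exact Option.some_ne_none _ (congrArg Prod.fst h)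
        · exact Option.some_ne_none _ (congrArg Prod.fst h)
        · exact Option.some_ne_none _ (congrArg Prod.fst h)
    · rintro b ⟨x, k⟩ ⟨y, l⟩ hx0 hx1 hy0 hy1
      rw [hK, hΨ]
      show ∃ z : ℂ, (amp m (Unitization.starLift (c 0) b) (σ b)) x y k l = _
      rcases x with _ | x
      · exfalso
        fin_cases k
        · exact hx0 rfl
        · exact hx1 rfl
      rcases y with _ | y
      · exfalso
        fin_cases l
        · exact hy0 rfl
        · exact hy1 rfl
      rw [amp_some_some]
      by_cases h : x.1 = y.1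
      · rw [if_pos h, Mt.algebraMap_apply]
        by_cases h2 : k = l
        · rw [if_pos h2]
          exact ⟨_, rfl⟩
        · rw [if_neg h2]
          exact ⟨0, (map_zero _).symm⟩
      · rw [if_neg h]
        exact ⟨0, (map_zero _).symm⟩
    · intro b hb
      have hsc : ∀ x y : Option (Fin m × J) × Fin 2, ∃ z : ℂ,
          Ψ (amp m (Unitization.starLift (c m) b) (σ b)) x y =
            algebraMap ℂ (Unitization ℂ X) z := by
        rintro ⟨x, k⟩ ⟨y, l⟩
        rw [hΨ]
        show ∃ z : ℂ, (amp m (Unitization.starLift (c m) b) (σ b)) x y k l = _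
        have halg : ∀ r : ℂ, ∃ z : ℂ,
            (algebraMap ℂ (Mt (Fin 2) (Unitization ℂ X)) r) k l =
              algebraMap ℂ (Unitization ℂ X) z := by
          intro r
          rw [Mt.algebraMap_apply]
          by_cases h2 : k = l
          · rw [if_pos h2]
            exact ⟨_, rfl⟩
          · rw [if_neg h2]
            exact ⟨0, (map_zero _).symm⟩
        rcases x with _ | x <;> rcases y with _ | y
        · rw [amp_none_none, starLift_val, hcm, add_zero]
          exact halg _
        · rw [amp_none_some]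
          exact ⟨0, (map_zero _).symm⟩
        · rw [amp_some_none]
          exact ⟨0, (map_zero _).symm⟩
        · rw [amp_some_some]
          by_cases h : x.1 = y.1
          · rw [if_pos h]
            exact halg _
          · rw [if_neg h]
            exact ⟨0, (map_zero _).symm⟩
      choose z hz using hsc
      refine ⟨z, ?_⟩
      have e1 : (Mt.scal z : Mt (Option (Fin m × J) × Fin 2) (Unitization ℂ X)) =
          Ψ (amp m (Unitization.starLift (c m) b) (σ b)) := by
        refine Mt.ext fun x y => ?_
        rw [Mt.scal_apply, hz]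
      rw [e1, hK, ← map_star, ← map_mul, ← map_mul, ← map_sub]
      have e2 := NonUnitalStarAlgHom.norm_apply_le Ψ
        (amp m (Unitization.starLift (c 0) b) (σ b) -
          star w * amp m (Unitization.starLift (c m) b) (σ b) * w)
      have e3 := conj_le (x := amp m (Unitization.starLift (c 0) b) (σ b))
        (y := amp m (Unitization.starLift (c m) b) (σ b)) hw1
      have e4 := hw b hb
      have e5 := hδ b hb
      have e6 : 6 * (m : ℝ) * √(δ * (1 + 2 * ‖b‖)) ≤ 6 * m * κ :=
        mul_le_mul_of_nonneg_left e5 (by positivity)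
      linarith
  -- padding
  obtain ⟨K', w', hfin⟩ := hPAD (Unitization ℂ X) (Unitization.starMap θ)
    (Unitization.starLift (0 : X →⋆ₙₐ[ℂ] ℂ)) F ε (Option (Fin m × J) × Fin 2)
    (Fin (2 ^ Fintype.card (Option (Fin m × J) × Fin 2) -
      Fintype.card (Option (Fin m × J) × Fin 2))) (none, 0) (none, 1) _ _ hε hstep
  refine ⟨Fintype.card (Option (Fin m × J) × Fin 2), _, inferInstance, inferInstance, _, _,
    K', w', ?_, hfin⟩
  rw [Fintype.card_sum, Fintype.card_fin]
  have := Nat.lt_two_pow_self (n := Fintype.card (Option (Fin m × J) × Fin 2))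
  omega

end Pool.Agent.Helper64.CAR
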